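import Pool.Agent.H66.CM.Two

/-! # A multiplier theorem with blocks of primes (MP_3e22f2_co) -/

set_option autoImplicit false

namespace Pool.Agent.Results.MP_3e22f2_co.BlockOrders

open Pool.Agent.H58.Mult Pool.Agent.H66.CM

/-- (1) Let `D` be a cyclic `(v, k, lam)`-difference set, `k - lam = a b n₁ > 0` prime to `v`, `w` a
divisor of `v`, `Rigid v (v / w) (b ^ 2)` and `R ≥ 2`. Suppose that for every prime `q` dividing
`v / w` some unit `u` which is, modulo `v`, a power of every prime dividing `a` has order at least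
`R a b / (R - 1)` modulo `q`. Let `t` be a unit which is `1` modulo `w` and, modulo `v`, a power of
every prime dividing `n₁`. Then `t ^ i` is a multiplier of `D` for some `i` dividing the order of
`t`, all of whose prime factors are less than `R`, and which is at most `R - 1` to the power of the
number of prime factors of `v / w`.
(2) Let `v` be prime and `D` a difference set modulo `v` with `1 < |D| < v - 1`, `n = |D| - lam`.
Then `D` has a multiplier `t ≠ 1` in each of the following cases (`r`, `s` are odd primes):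
`v - 1 = 2 r s`, `r < s`; `v - 1 = 4 r s`, `r < s` and `r ^ r` is not `1` modulo `v`;
`v - 1 = 2 ^ e r ^ c s ^ d`, `c, d ≥ 1`, and `x ^ (r ^ c)` is not `1` modulo `v` for the integers `x`
with `(1 - 1 / s) r < x < 3 (v + 1) / (8 s)`; or there are divisors `A ≤ B` of `v - 1` with
`n ≤ (A - 1) B` such that the order modulo `v` of every prime which divides `n`, if it is odd, is a
multiple of `A` or of `B`. -/
theorem result :
    (∀ (v : ℕ) [NeZero v] (D : Finset (ZMod v)) (lam a b n₁ w R : ℕ),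
      (∀ α : ZMod v, α ≠ 0 → ((D ×ˢ D).filter (fun p => p.1 - p.2 = α)).card = lam) →
      D.card = lam + a * b * n₁ → 0 < a * b * n₁ → Nat.Coprime (a * b * n₁) v → w ∣ v →
      Rigid v (v / w) (b ^ 2) → 2 ≤ R →
      (∀ q : ℕ, q.Prime → q ∣ v / w → ∃ u : (ZMod v)ˣ,
        (∀ p : ℕ, p.Prime → p ∣ a → ∃ j : ℕ, (u : ZMod v) = (p : ZMod v) ^ j) ∧
        ∀ i : ℕ, 0 < i → (R - 1) * i < R * (a * b) → ¬ (u : ZMod v).val ^ i ≡ 1 [MOD q]) →
      ∀ t : (ZMod v)ˣ,
        (∀ p : ℕ, p.Prime → p ∣ n₁ → ∃ j : ℕ, (t : ZMod v) = (p : ZMod v) ^ j) →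
        (t : ZMod v).val ≡ 1 [MOD w] →
        ∃ i : ℕ, 0 < i ∧ i ∣ orderOf t ∧ (∀ p : ℕ, p.Prime → p ∣ i → p < R) ∧
          i ≤ (R - 1) ^ ArithmeticFunction.cardFactors (v / w) ∧
          ∃ s : ZMod v, D.image (fun x => ((t ^ i : (ZMod v)ˣ) : ZMod v) * x) =
            D.image (fun x => x + s)) ∧
    ∀ (v : ℕ) [NeZero v] (D : Finset (ZMod v)) (lam : ℕ), v.Prime →
      (∀ α : ZMod v, α ≠ 0 → ((D ×ˢ D).filter (fun p => p.1 - p.2 = α)).card = lam) →
      1 < D.card → D.card + 1 < v →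
      ((∃ A B : ℕ, A ∣ v - 1 ∧ B ∣ v - 1 ∧ A ≤ B ∧ D.card ≤ lam + (A - 1) * B ∧
          ∀ p : ℕ, p.Prime → p ∣ D.card - lam → Odd (orderOf (p : ZMod v)) →
            A ∣ orderOf (p : ZMod v) ∨ B ∣ orderOf (p : ZMod v)) ∨
        ∃ r s : ℕ, r.Prime ∧ s.Prime ∧ 2 < r ∧ 2 < s ∧
          ((r < s ∧ v - 1 = 2 * r * s) ∨ (r < s ∧ v - 1 = 4 * r * s ∧ ¬ r ^ r ≡ 1 [MOD v]) ∨
            ∃ e c d : ℕ, 0 < c ∧ 0 < d ∧ v - 1 = 2 ^ e * r ^ c * s ^ d ∧
              ∀ x : ℕ, (s - 1) * r < s * x → 8 * s * x < 3 * (v + 1) →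
                ¬ x ^ r ^ c ≡ 1 [MOD v])) →
      ∃ t : (ZMod v)ˣ, t ≠ 1 ∧
        ∃ s : ZMod v, D.image (fun x => (t : ZMod v) * x) = D.image (fun x => x + s) := by
  have hds : ∀ (v : ℕ) [NeZero v] (D : Finset (ZMod v)) (lam : ℕ),
      (∀ α : ZMod v, α ≠ 0 → ((D ×ˢ D).filter (fun p => p.1 - p.2 = α)).card = lam) →
      IsDS D (lam : ℤ) := by
    intro v _ D lam hD α hα
    have h := hD α hα
    unfold cnt
    rw [← h, Finset.card_filter, Finset.sum_product]
    push_cast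
    simp only [one_mul]
  refine ⟨?_, ?_⟩
  · intro v _ D lam a b n₁ w R hD hn hpos hcop hw hb hR hord t htp htw
    obtain ⟨i, h1, h2, h3, h4, h5⟩ := block_mult (hds v D lam hD) hn hpos hcop hw hb hR hord t
      htp htw
    exact ⟨i, h1, h3, h4, h2, h5⟩
  · intro v _ D lam hv hD h1 h2 h
    have hmod : ∀ x M : ℕ, (x : ZMod v) ^ M = 1 → x ^ M ≡ 1 [MOD v] := by
      intro x M h3
      rw [← ZMod.natCast_eq_natCast_iff]
      push_cast
      exact h3
    rcases h with ⟨A, B, hA, hB, hAB, hn, hord⟩ | ⟨r, s, hr, hs, hr2, hs2, h⟩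
    · exact two_orders hv (hds v D lam hD) h1 h2 hA hB hAB hn hord
    rcases h with ⟨hrs, h⟩ | ⟨hrs, h, hrr⟩ | ⟨e, c, d, hc, hd, h, hx⟩
    · exact two_primes hv (hds v D lam hD) h1 h2 hr hs hr2 hrs h
    · exact four_primes hv (hds v D lam hD) h1 h2 hr hs hr2 hrs h fun h3 => hrr (hmod _ _ h3)
    · exact small_root hv (hds v D lam hD) h1 h2 hr hs hr2 hs2 hc hd h
        fun x g1 g2 h3 => hx x g1 g2 (hmod _ _ h3)

end Pool.Agent.Results.MP_3e22f2_co.BlockOrders
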