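import Pool.Agent.H10.MU.Event2

/-! # Orders `m p ^ b` with `m` fixed: non-trivial multipliers (MP_3e22f2_co) -/

set_option autoImplicit false

namespace Pool.Agent.Results.MP_3e22f2_co.FixedCofactor

open Pool.Agent.H58.Mult

/-- Every cyclic difference set `D` in `ZMod v` with `1 < |D| < v - 1`, whose order
`|D| - lam = m * p ^ b` (`p` a prime) is prime to `v` and at least an explicit constant depending
on `m` only, has a non-trivial multiplier. -/
theorem result (v : ℕ) (D : Finset (ZMod v)) (lam m p b : ℕ) (hp : p.Prime) (h1 : 1 < D.card)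
    (h2 : D.card + 1 < v)
    (hD : ∀ α : ZMod v, α ≠ 0 → ((D ×ˢ D).filter (fun z => z.1 - z.2 = α)).card = lam)
    (hn : D.card = lam + m * p ^ b) (hcop : Nat.Coprime (m * p ^ b) v)
    (hlarge : (m ^ 2 + m) ^ (2 * 8 ^ (m ^ 2)) ≤ m * p ^ b) :
    ∃ t : (ZMod v)ˣ, t ≠ 1 ∧ ∃ s : ZMod v,
      D.image (fun x => (t : ZMod v) * x) = D.image (fun x => x + s) := by
  have hv : NeZero v := ⟨by omega⟩
  have hds : IsDS D (lam : ℤ) := by
    intro α hα
    have h := hD α hα
    unfold cnt
    rw [← h, Finset.card_filter, Finset.sum_product]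
    push_cast
    simp only [one_mul]
  exact Pool.Agent.H10.MU.eventually2 hds hp h1 h2 (by rw [hn]; push_cast; ring) hcop hlarge

end Pool.Agent.Results.MP_3e22f2_co.FixedCofactor
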