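import Pool.Agent.H10.MU.Final

/-! # Almost all primes `v` with a prime factor of `v - 1` above `v ^ (2/3 + eps)` (MP_3e22f2_co) -/

set_option autoImplicit false

namespace Pool.Agent.Results.MP_3e22f2_co.PrimeOrders

/-- Let `2/3 < θ` and `δ < 2 θ - 4/3`. Among the primes `v ≤ X` such that `v - 1` has a prime
factor `r ≥ v ^ θ`, all but at most `C X ^ (1 - δ)` have the property that every cyclic difference
set `D` modulo `v` with `1 < |D| < v - 1` has a non-trivial multiplier. -/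
theorem result (θ δ : ℝ) (hθ : 2 / 3 < θ) (hδ : δ < 2 * θ - 4 / 3) :
    ∃ C : ℝ, ∀ X : ℕ,
      (({v : ℕ | v ≤ X ∧ v.Prime ∧ (∃ r : ℕ, r.Prime ∧ r ∣ v - 1 ∧ (v : ℝ) ^ θ ≤ r) ∧
        ∃ D : Finset (ZMod v), 1 < D.card ∧ D.card + 1 < v ∧
          (∃ lam : ℕ, ∀ α : ZMod v, α ≠ 0 →
            ((D ×ˢ D).filter (fun p => p.1 - p.2 = α)).card = lam) ∧
          ¬ ∃ t : (ZMod v)ˣ, t ≠ 1 ∧ ∃ s : ZMod v,
            D.image (fun x => (t : ZMod v) * x) = D.image (fun x => x + s)}.ncard : ℕ) : ℝ) ≤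
        C * (X : ℝ) ^ (1 - δ) :=
  Pool.Agent.H10.MU.main hθ hδ

end Pool.Agent.Results.MP_3e22f2_co.PrimeOrders
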