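import Pool.Agent.H10.MU.Twist

/-! # Numerical candidates that are `1` modulo a small divisor of `v` (MP_3e22f2_co) -/

set_option autoImplicit false

namespace Pool.Agent.Results.MP_3e22f2_co.SmallDivisor

open Pool.Agent.H58.Mult

/-- Let `D` be a non-trivial cyclic `(v, k, lam)`-difference set of order `k - lam = m * n₁` prime
to `v`, and let `t` be a unit modulo `v` which is, modulo `v`, a power of every prime dividing
`n₁`. Then there is a divisor `w ≤ 8 ^ (m ^ 2)` of `v` such that every power `t ^ i` which is `1`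
modulo `w` is a multiplier of `D`. -/
theorem result (v : ℕ) (D : Finset (ZMod v)) (lam m n₁ : ℕ) (h1 : 1 < D.card)
    (h2 : D.card + 1 < v)
    (hD : ∀ α : ZMod v, α ≠ 0 → ((D ×ˢ D).filter (fun p => p.1 - p.2 = α)).card = lam)
    (hn : D.card = lam + m * n₁) (hcop : Nat.Coprime (m * n₁) v) (t : (ZMod v)ˣ)
    (ht : ∀ p : ℕ, p.Prime → p ∣ n₁ → ∃ j : ℕ, (t : ZMod v) = (p : ZMod v) ^ j) :
    ∃ w : ℕ, w ∣ v ∧ w ≤ 8 ^ (m ^ 2) ∧
      ∀ i : ℕ, ((t ^ i : (ZMod v)ˣ) : ZMod v).val ≡ 1 [MOD w] → ∃ s : ZMod v,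
        D.image (fun x => ((t ^ i : (ZMod v)ˣ) : ZMod v) * x) = D.image (fun x => x + s) := by
  have hv : NeZero v := ⟨by omega⟩
  have hpos : 0 < m * n₁ := by
    rcases Nat.eq_zero_or_pos (m * n₁) with h | h
    · rw [h, Nat.coprime_zero_left] at hcop
      omega
    · exact h
  have hds : IsDS D (lam : ℤ) := by
    intro α hα
    have h := hD α hα
    unfold cnt
    rw [← h, Finset.card_filter, Finset.sum_product]
    push_cast
    simp only [one_mul]
  exact Pool.Agent.H10.MU.small_div hds (Nat.pos_of_mul_pos_right hpos)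
    (Nat.pos_of_mul_pos_left hpos) (by rw [hn]; push_cast; ring) hcop t ht

end Pool.Agent.Results.MP_3e22f2_co.SmallDivisor
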